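import Pool.Agent.Helper78.TY.StA

/-!
# Project TY, module BNAN: rank of the reduction

Adapted from `Pool/Agent/Helper84/TE2/M_BNAG2.lean`.
-/

set_option autoImplicit false

namespace Pool.Agent.Helper45.TY

open Pool.Agent.Helper14.CV Pool.Agent.Helper28.WK Pool.Agent.Helper78.TW
open Pool.Agent.Helper14.TT (evXb UnbT)
open Pool.Agent.Helper76.TX (NewSymS Sg evX)
open Pool.Agent.Helper78.TU (CmO)
open Pool.Agent.Helper78.TE2 (Hb2)
open Pool.Agent.Helper78.TY

private lemma sym_mono {R : Type} [AddCommGroup R] {n1 n : ℕ} (h : n1 ≤ n) {G : ℤ → ℤ → R}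
    (hG : Sym 0 n1 G) : Sym 0 n G :=
  ⟨hG.1, fun a b c d hd hb hc => hG.2 a b c d hd hb ((pow_dvd_pow 2 h).trans hc)⟩

private lemma cast_odd {F : Type} [Field F] (h2 : (2 : F) = 0) {x : ℤ} (hx : Odd x) :
    (x : F) ≠ 0 := by
  obtain ⟨t, rfl⟩ := hx
  push_cast
  rw [h2]
  simp

private lemma cast_even {F : Type} [Field F] (h2 : (2 : F) = 0) {x : ℤ} (hx : (2 : ℤ) ∣ x) :
    (x : F) = 0 := by
  obtain ⟨t, rfl⟩ := hx
  push_cast
  rw [h2, zero_mul]

private lemma sum_fib {F M : Type} [Field F] [AddCommGroup M] [Module F M] {N : ℕ}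
    (ij : Fin N → ℕ × ℕ) (x : Fin N → F) (f : ℕ × ℕ → M) :
    ∑ p ∈ Finset.univ.image ij, (∑ l ∈ Finset.univ.filter (fun l => ij l = p), x l) • f p =
      ∑ l, x l • f (ij l) := by
  rw [← Finset.sum_fiberwise_of_maps_to (s := Finset.univ) (t := Finset.univ.image ij) (g := ij)
    (fun l _ => Finset.mem_image_of_mem ij (Finset.mem_univ l)) (fun l => x l • f (ij l))]
  refine Finset.sum_congr rfl fun p _ => ?_
  rw [Finset.sum_smul]
  refine Finset.sum_congr rfl fun l hl => ?_
  rw [(Finset.mem_filter.1 hl).2]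

/-- MODULE BNAN. -/
theorem hBNAN : StBNAN := by
  intro hB coef cm unb rk A i1 i2 i3 ι h2 hι D c hc n1 Gs hn1 hGs hz n hn
  have hB0 : (1 : ℕ) ≠ 0 := hB.b0
  have h3 : 3 ≤ n := by omega
  obtain ⟨G, ij, hG, hodd⟩ := hB.fam n h3
  obtain ⟨b, hb⟩ := coef A i1 i2 i3 ι h2 hι D c hc n h3 G ij hG hodd
  have h2F : (2 : IsLocalRing.ResidueField A) = 0 := by
    rw [← (IsLocalRing.residue_eq_zero_iff (2 : A)).2 h2, map_ofNat]
  refine ⟨G, hG, ?_⟩
  have key := rk (IsLocalRing.ResidueField A) inferInstance (DD n) (2 ^ (n / 2 + 1))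
    (2 ^ (n1 / 2 + 1)) (fun i j k => ((evXb 1 1 (G k) i j : ℤ) : IsLocalRing.ResidueField A))
    (Finset.univ.image ij)
    (fun p => ∑ l ∈ Finset.univ.filter (fun l => ij l = p), IsLocalRing.residue A (b l))
    ?_ ?_ ?_
  · have e5 : (fun (q : ℕ × ℕ) (k : Fin (DD n)) => IsLocalRing.residue A
        (psz D c (TT q (G k)))) =
        fun q : ℕ × ℕ => ∑ p ∈ Finset.univ.image ij,
          (∑ l ∈ Finset.univ.filter (fun l => ij l = p), IsLocalRing.residue A (b l)) •
          (fun k => ((evXb 1 1 (G k) (q.1 + p.1) (q.2 + p.2) : ℤ) :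
            IsLocalRing.ResidueField A)) := by
      funext q
      rw [sum_fib ij (fun l => IsLocalRing.residue A (b l))
        (fun p => (fun k => ((evXb 1 1 (G k) (q.1 + p.1) (q.2 + p.2) : ℤ) :
            IsLocalRing.ResidueField A)))]
      funext k
      have h1 := cm.1 ℤ _ 1 n (G k) hB0 (hG k) q
      rw [hb _ h1.1, map_sum, Finset.sum_apply]
      refine Finset.sum_congr rfl fun l _ => ?_
      rw [map_mul, map_intCast, Pi.smul_apply, smul_eq_mul, h1.2, add_comm (ij l).1,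
        add_comm (ij l).2]
    rw [e5]
    exact key
  · have hdet : Matrix.det ((Matrix.of fun k l => evXb 1 1 (G k) (ij l).1 (ij l).2).map
        (Int.castRingHom (IsLocalRing.ResidueField A))) ≠ 0 := by
      rw [← RingHom.mapMatrix_apply, ← RingHom.map_det]
      exact cast_odd h2F hodd
    have hli := Matrix.linearIndependent_cols_of_det_ne_zero hdet
    have htop := hli.span_eq_top_of_card_eq_finrank' (by simp)
    rw [eq_top_iff, ← htop]
    refine Submodule.span_mono ?_
    rintro _ ⟨l, rfl⟩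
    exact ⟨ij l, rfl⟩
  · intro i j hij
    funext k
    exact cast_even h2F (hB.nil n (by omega) (G k) (hG k) i j hij)
  · have hne0 : IsLocalRing.residue A (psz D c Gs) ≠ 0 :=
      (hz.map (IsLocalRing.residue A)).ne_zero
    have hsum : IsLocalRing.residue A (psz D c Gs) = ∑ p ∈ Finset.univ.image ij,
        (∑ l ∈ Finset.univ.filter (fun l => ij l = p), IsLocalRing.residue A (b l)) •
          ((evXb 1 1 Gs p.1 p.2 : ℤ) : IsLocalRing.ResidueField A) := by
      rw [sum_fib ij (fun l => IsLocalRing.residue A (b l))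
        (fun p => ((evXb 1 1 Gs p.1 p.2 : ℤ) : IsLocalRing.ResidueField A))]
      rw [hb Gs (sym_mono hn hGs), map_sum]
      refine Finset.sum_congr rfl fun l _ => ?_
      rw [map_mul, map_intCast, smul_eq_mul]
    obtain ⟨p, hp, hne⟩ := Finset.exists_ne_zero_of_sum_ne_zero (hsum ▸ hne0)
    rw [smul_eq_mul] at hne
    refine ⟨p, hp, left_ne_zero_of_mul hne, ?_⟩
    by_contra hlt
    exact right_ne_zero_of_mul hne
      (cast_even h2F (hB.nil n1 hn1 Gs hGs p.1 p.2 (not_le.1 hlt)))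

end Pool.Agent.Helper45.TY
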